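import Mathlib

/-!
# Biased Maker-Breaker games and the clique game on `K_N`
-/

set_option autoImplicit false

namespace Pool.Agent.Helper25.CliqueGame

open Finset

/-- A legal move of a player with bias `k` at the position where Maker owns `M` and Breaker owns
`B`: he claims exactly `k` free elements of the board, or all free elements if fewer than `k`
are left. -/
def Legal {α : Type*} [DecidableEq α] (board M B : Finset α) (k : ℕ) (X : Finset α) : Prop :=
  X ⊆ board \ (M ∪ B) ∧ X.card = min k (board \ (M ∪ B)).card

/-- `Forces W board m b n M B`: in the `(m : b)` game on `board`, at the position `(M, B)` with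
Maker to move, Maker can guarantee that after `n` more rounds (a round is a move of Maker followed
by a move of Breaker; the moves are empty once the board is exhausted) his set satisfies `W`. -/
def Forces {α : Type*} [DecidableEq α] (W : Finset α → Prop) (board : Finset α) (m b : ℕ) :
    ℕ → Finset α → Finset α → Prop
  | 0, M, _ => W M
  | n + 1, M, B => ∃ X, Legal board M B m X ∧
      ∀ Y, Legal board (M ∪ X) B b Y → Forces W board m b n (M ∪ X) (B ∪ Y)

/-- The edges of the complete graph `K_N`. -/
def edges (N : ℕ) : Finset (Sym2 (Fin N)) := univ.filter (fun e => ¬ e.IsDiag)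

/-- The edge set `M` contains all edges of a copy of `K_q`. -/
def HasClique (N q : ℕ) (M : Finset (Sym2 (Fin N))) : Prop :=
  ∃ S : Finset (Fin N), S.card = q ∧ ∀ u ∈ S, ∀ v ∈ S, u ≠ v → s(u, v) ∈ M

/-- Maker (moving first) wins the `K_q`-game in the `(m : b)` game on `K_N`.  Since at least one
edge is claimed in every round as long as the board is not exhausted (`m ≥ 1`), the board is
exhausted after `(edges N).card` rounds. -/
def MakerWins (N m b q : ℕ) : Prop :=
  Forces (HasClique N q) (edges N) m b (edges N).card ∅ ∅

open Classical in
/-- `f_N(m, b)`: the largest `q` such that Maker wins the `K_q`-game in the `(m : b)` game on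
`K_N` (`q ≤ N` since a clique has at most `N` vertices). -/
noncomputable def value (N m b : ℕ) : ℕ := Nat.findGreatest (MakerWins N m b) N

end Pool.Agent.Helper25.CliqueGame
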