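import Mathlib
import Pool.Agent.Helper25.CliqueGame.Defs

set_option autoImplicit false

namespace Pool.Agent.Helper25.CliqueGame

open Finset

section general

variable {α : Type*} [DecidableEq α]

/-- Maker, to move, can force to reach a position with property `G` (with Maker to move). -/
inductive Reach (board : Finset α) (m b : ℕ) (G : Finset α → Finset α → Prop) :
    Finset α → Finset α → Prop
  | here {M B : Finset α} : G M B → Reach board m b G M B
  | turn {M B : Finset α} (X : Finset α) : Legal board M B m X →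
      (∀ Y, Legal board (M ∪ X) B b Y → Reach board m b G (M ∪ X) (B ∪ Y)) →
      Reach board m b G M B

theorem Reach.bind {board : Finset α} {m b : ℕ} {G H : Finset α → Finset α → Prop}
    {M B : Finset α} (h : Reach board m b G M B)
    (hGH : ∀ M' B', G M' B' → Reach board m b H M' B') : Reach board m b H M B := by
  induction h with
  | here hG => exact hGH _ _ hG
  | turn X hX _ ih => exact Reach.turn X hX ih

theorem exists_legal (board M B : Finset α) (k : ℕ) (T : Finset α)
    (hT : T ⊆ board \ (M ∪ B)) (hTk : T.card ≤ k) : ∃ X, Legal board M B k X ∧ T ⊆ X := by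
  obtain ⟨u, hu1, hu2, hu3⟩ := Finset.exists_subsuperset_card_eq hT
    (n := min k (board \ (M ∪ B)).card) (le_min hTk (Finset.card_le_card hT)) (min_le_right _ _)
  exact ⟨u, ⟨hu2, hu3⟩, hu1⟩

theorem forces_of_W {board : Finset α} {m b : ℕ} {W : Finset α → Prop}
    (hW : ∀ M M', M ⊆ M' → W M → W M') :
    ∀ (n : ℕ) (M B : Finset α), W M → Forces W board m b n M B := by
  intro n
  induction n with
  | zero => intro M B h; exact h
  | succ n ih =>
    intro M B h
    obtain ⟨X, hX, _⟩ := exists_legal board M B m ∅ (by simp) (by simp)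
    exact ⟨X, hX, fun Y _ => ih _ _ (hW _ _ Finset.subset_union_left h)⟩

theorem Reach.forces {board : Finset α} {m b : ℕ} (hm : 0 < m) {W : Finset α → Prop}
    (hW : ∀ M M', M ⊆ M' → W M → W M') {M B : Finset α}
    (h : Reach board m b (fun M _ => W M) M B) :
    ∀ n, (board \ (M ∪ B)).card ≤ n → Forces W board m b n M B := by
  induction h with
  | here hG => intro n _; exact forces_of_W hW n _ _ hG
  | @turn M B X hX _ ih =>
    intro n hn
    rcases n with _ | n
    · -- the board is full
      have h0 : board \ (M ∪ B) = ∅ := Finset.card_eq_zero.1 (by omega)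
      have hX0 : X = ∅ := by
        have := hX.1; rw [h0] at this; exact Finset.subset_empty.1 this
      subst hX0
      have hleg : Legal board (M ∪ ∅) B b ∅ := by
        refine ⟨by simp, ?_⟩
        rw [Finset.union_empty, h0]; simp
      have := ih ∅ hleg 0 (by
        rw [Finset.union_empty, Finset.union_empty, h0]; simp)
      simpa [Forces] using this
    · refine ⟨X, hX, fun Y hY => ih Y hY n ?_⟩
      by_cases h0 : (board \ (M ∪ B)).card = 0
      · have : board \ (M ∪ X ∪ (B ∪ Y)) ⊆ board \ (M ∪ B) := by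
          intro a ha
          simp only [mem_sdiff, mem_union, not_or] at ha ⊢
          tauto
        have := Finset.card_le_card this
        omega
      · have hXpos : 0 < X.card := by rw [hX.2]; omega
        have : board \ (M ∪ X ∪ (B ∪ Y)) ⊆ (board \ (M ∪ B)) \ X := by
          intro a ha
          simp only [mem_sdiff, mem_union, not_or] at ha ⊢
          tauto
        have h1 := Finset.card_le_card this
        rw [Finset.card_sdiff_of_subset hX.1] at h1
        omega

/-- One turn in which Maker makes sure that all elements of `T` are his. -/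
theorem Reach.turn_core {board : Finset α} {m b : ℕ} {G : Finset α → Finset α → Prop}
    {M B : Finset α} (T : Finset α) (hT : T ⊆ board) (hTB : Disjoint T B) (hTm : T.card ≤ m)
    (hMB : Disjoint M B)
    (h : ∀ M' Y, M ∪ T ⊆ M' → Y ⊆ board → Y.card ≤ b → Disjoint M' (B ∪ Y) →
      Reach board m b G M' (B ∪ Y)) : Reach board m b G M B := by
  have hT' : T \ M ⊆ board \ (M ∪ B) := by
    intro a ha
    simp only [mem_sdiff, mem_union, not_or] at ha ⊢
    exact ⟨hT ha.1, ha.2, fun hb => Finset.disjoint_left.1 hTB ha.1 hb⟩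
  obtain ⟨X, hX, hTX⟩ := exists_legal board M B m (T \ M) hT'
    (le_trans (Finset.card_le_card Finset.sdiff_subset) hTm)
  refine Reach.turn X hX fun Y hY => ?_
  apply h
  · intro a ha
    rcases Finset.mem_union.1 ha with ha | ha
    · exact Finset.mem_union_left _ ha
    · by_cases haM : a ∈ M
      · exact Finset.mem_union_left _ haM
      · exact Finset.mem_union_right _ (hTX (Finset.mem_sdiff.2 ⟨ha, haM⟩))
  · exact hY.1.trans Finset.sdiff_subset
  · rw [hY.2]; exact min_le_left _ _
  · rw [Finset.disjoint_union_right, Finset.disjoint_union_left]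
    refine ⟨⟨hMB, ?_⟩, ?_⟩
    · rw [Finset.disjoint_left]; intro a ha haB
      have := hX.1 ha
      simp only [mem_sdiff, mem_union, not_or] at this
      exact this.2.2 haB
    · rw [Finset.disjoint_right]; intro a ha haM
      have := hY.1 ha
      simp only [mem_sdiff, mem_union, not_or] at this haM
      tauto

end general

section clique

variable {N : ℕ}

/-- number of Breaker-neighbours of `z` in `D` -/
def degB (B : Finset (Sym2 (Fin N))) (D : Finset (Fin N)) (z : Fin N) : ℕ :=
  (D.filter (fun w => s(z, w) ∈ B)).card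

/-- sum of the Breaker-degrees inside `D` -/
def E2 (B : Finset (Sym2 (Fin N))) (D : Finset (Fin N)) : ℕ := ∑ z ∈ D, degB B D z

theorem degB_mono {B : Finset (Sym2 (Fin N))} {D D' : Finset (Fin N)} (h : D ⊆ D') (z : Fin N) :
    degB B D z ≤ degB B D' z :=
  Finset.card_le_card (Finset.filter_subset_filter _ h)

theorem E2_eq_card (B : Finset (Sym2 (Fin N))) (D : Finset (Fin N)) :
    E2 B D = ((D ×ˢ D).filter (fun p => s(p.1, p.2) ∈ B)).card := by
  unfold E2 degB
  rw [Finset.card_filter, Finset.sum_product]
  apply Finset.sum_congr rfl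
  intro z _
  rw [Finset.card_filter]

theorem E2_union_le (B Y : Finset (Sym2 (Fin N))) (D : Finset (Fin N)) (Xs : Finset (Fin N))
    (hD : Disjoint D Xs) :
    E2 (B ∪ Y) D ≤ E2 B D + 2 * (Y.filter (fun e => ∀ x ∈ Xs, x ∉ e)).card := by
  rw [E2_eq_card, E2_eq_card]
  have h1 : (D ×ˢ D).filter (fun p => s(p.1, p.2) ∈ B ∪ Y) ⊆
      (D ×ˢ D).filter (fun p => s(p.1, p.2) ∈ B) ∪
      (D ×ˢ D).filter (fun p => s(p.1, p.2) ∈ Y.filter (fun e => ∀ x ∈ Xs, x ∉ e)) := by
    intro p hp
    simp only [mem_filter, mem_union, mem_product] at hp ⊢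
    rcases hp.2 with h | h
    · left; exact ⟨hp.1, h⟩
    · right
      refine ⟨hp.1, h, ?_⟩
      intro x hx hxe
      rcases Sym2.mem_iff.1 hxe with rfl | rfl
      · exact Finset.disjoint_left.1 hD hp.1.1 hx
      · exact Finset.disjoint_left.1 hD hp.1.2 hx
  refine (Finset.card_le_card h1).trans ((Finset.card_union_le _ _).trans ?_)
  apply Nat.add_le_add_left
  set Y' := Y.filter (fun e => ∀ x ∈ Xs, x ∉ e) with hY'
  have h2 := Finset.card_le_mul_card_image (f := fun p : Fin N × Fin N => s(p.1, p.2))
    ((D ×ˢ D).filter (fun p => s(p.1, p.2) ∈ Y')) 2 (by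
      intro e he
      obtain ⟨p, hp, rfl⟩ := Finset.mem_image.1 he
      have : ((D ×ˢ D).filter (fun p => s(p.1, p.2) ∈ Y')).filter
          (fun q => s(q.1, q.2) = s(p.1, p.2)) ⊆ {(p.1, p.2), (p.2, p.1)} := by
        intro q hq
        simp only [mem_filter, mem_insert, mem_singleton] at hq ⊢
        rcases Sym2.eq_iff.1 hq.2 with ⟨h, h'⟩ | ⟨h, h'⟩
        · left; exact Prod.ext h h'
        · right; exact Prod.ext h h'
      exact (Finset.card_le_card this).trans Finset.card_le_two)
  refine h2.trans (Nat.mul_le_mul_left 2 (Finset.card_le_card ?_))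
  intro e he
  obtain ⟨p, hp, rfl⟩ := Finset.mem_image.1 he
  exact (Finset.mem_filter.1 hp).2

/-- killed vertices -/
theorem killed_le (Y : Finset (Sym2 (Fin N))) (R Xs : Finset (Fin N)) (hR : Disjoint R Xs) :
    (R.filter (fun w => ∃ x ∈ Xs, s(x, w) ∈ Y)).card ≤
      (Y.filter (fun e => ¬ ∀ x ∈ Xs, x ∉ e)).card := by
  classical
  have hex : ∀ w ∈ R.filter (fun w => ∃ x ∈ Xs, s(x, w) ∈ Y), ∃ x ∈ Xs, s(x, w) ∈ Y :=
    fun w hw => (Finset.mem_filter.1 hw).2
  let f : Fin N → Sym2 (Fin N) := fun w => if h : ∃ x ∈ Xs, s(x, w) ∈ Y then s(h.choose, w) else s(w, w)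
  apply Finset.card_le_card_of_injOn f
  · intro w hw
    have h := hex w hw
    simp only [f, dif_pos h]
    simp only [coe_filter, Set.mem_ofPred_eq]
    refine ⟨h.choose_spec.2, ?_⟩
    intro hcon
    exact hcon h.choose h.choose_spec.1 (Sym2.mem_mk_left _ _)
  · intro w hw w' hw' heq
    have h := hex w hw
    have h' := hex w' hw'
    simp only [f, dif_pos h, dif_pos h'] at heq
    rcases Sym2.eq_iff.1 heq with ⟨_, h2⟩ | ⟨h1, h2⟩
    · exact h2
    · exfalso
      have hwR := (Finset.mem_filter.1 hw).1
      rw [h2] at hwR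
      exact Finset.disjoint_left.1 hR hwR h'.choose_spec.1

end clique

end Pool.Agent.Helper25.CliqueGame
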