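import Mathlib
import Pool.Agent.Helper25.CliqueGame.Reach

set_option autoImplicit false

namespace Pool.Agent.Helper25.CliqueGame

open Finset

variable {N : ℕ}

theorem mem_edges {u v : Fin N} : s(u, v) ∈ edges N ↔ u ≠ v := by
  simp [edges]

theorem stage_inner {m b : ℕ} (Xs C : Finset (Fin N)) (hXs : Xs.card ≤ m)
    (hCX : Disjoint C Xs) (B0 B1 M0 : Finset (Sym2 (Fin N))) (g : ℤ) (β : ℕ) :
    ∀ (r : ℕ) (R P : Finset (Fin N)) (M B : Finset (Sym2 (Fin N))) (a : ℕ), R.card ≤ r →
      P ∪ R ⊆ C → Disjoint P R → Disjoint M B → B ⊆ edges N → M0 ⊆ M → B1 ⊆ B →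
      (∀ z ∈ R, ∀ x ∈ Xs, s(x, z) ∉ B) → (∀ z ∈ P, ∀ x ∈ Xs, s(x, z) ∈ M) →
      (∀ D, Disjoint D Xs → E2 B D ≤ E2 B0 D + 2 * a) →
      (∀ z ∈ R, degB B0 (P ∪ R) z ≤ 2 * (b + 1)) →
      (g ≤ ((b : ℤ) + 1) * (4 * ((b : ℤ) + 1) * P.card
          - ∑ z ∈ P, (degB B0 (P ∪ R) z : ℤ) - 2 * a)
          + (4 * ((b : ℤ) + 1) * R.card - ∑ z ∈ R, (degB B0 (P ∪ R) z : ℤ))) →
      B.card + b * r ≤ β →
      Reach (edges N) m b (fun M' B' => Disjoint M' B' ∧ B' ⊆ edges N ∧ M0 ⊆ M' ∧ B1 ⊆ B' ∧
        B'.card ≤ β ∧ ∃ P' ⊆ C, (∀ z ∈ P', ∀ x ∈ Xs, s(x, z) ∈ M') ∧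
          g ≤ ((b : ℤ) + 1) * (4 * ((b : ℤ) + 1) * P'.card - E2 B' P')) M B := by
  intro r
  induction r with
  | zero =>
    intro R P M B a hR hPC _ hMB hBe hM0 hB1 _ hP hE _ hg hβ
    have hR0 : R = ∅ := Finset.card_eq_zero.1 (by omega)
    subst hR0
    apply Reach.here
    refine ⟨hMB, hBe, hM0, hB1, by omega, P, ?_, hP, ?_⟩
    · exact (Finset.subset_union_left).trans hPC
    · have h1 := hE P (Finset.disjoint_of_subset_left ((Finset.subset_union_left).trans hPC) hCX)
      simp only [Finset.union_empty, Finset.card_empty, Finset.sum_empty] at hg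
      have h2 : (∑ z ∈ P, (degB B0 P z : ℤ)) = (E2 B0 P : ℤ) := by
        unfold E2; push_cast; rfl
      rw [h2] at hg
      have h3 : (E2 B P : ℤ) ≤ E2 B0 P + 2 * a := by exact_mod_cast h1
      have hb : (0 : ℤ) ≤ (b : ℤ) + 1 := by positivity
      calc g ≤ ((b : ℤ) + 1) * (4 * ((b : ℤ) + 1) * P.card - (E2 B0 P : ℤ) - 2 * a) := by
            push_cast at hg; linarith
        _ ≤ _ := by
            apply mul_le_mul_of_nonneg_left _ hb
            linarith
  | succ r ih =>
    intro R P M B a hR hPC hPR hMB hBe hM0 hB1 hRB hP hE hdeg hg hβ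
    by_cases hRne : R.Nonempty
    swap
    · rw [Finset.not_nonempty_iff_eq_empty] at hRne
      subst hRne
      refine ih ∅ P M B a (by simp) hPC hPR hMB hBe hM0 hB1 hRB hP hE hdeg hg ?_
      have : b * r ≤ b * (r + 1) := Nat.mul_le_mul_left b (Nat.le_succ r)
      omega
    obtain ⟨z, hz, hzmin⟩ := Finset.exists_min_image R (fun w => degB B0 (P ∪ R) w) hRne
    have hzC : z ∈ C := hPC (Finset.mem_union_right _ hz)
    have hzX : z ∉ Xs := Finset.disjoint_left.1 hCX hzC
    apply Reach.turn_core (Xs.image (fun x => s(x, z)))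
    · intro e he
      obtain ⟨x, hx, rfl⟩ := Finset.mem_image.1 he
      rw [mem_edges]; rintro rfl; exact hzX hx
    · rw [Finset.disjoint_left]
      intro e he
      obtain ⟨x, hx, rfl⟩ := Finset.mem_image.1 he
      exact hRB z hz x hx
    · exact Finset.card_image_le.trans hXs
    · exact hMB
    · intro M' Y hM' hYe hYb hdisj
      set Kl := (R.erase z).filter (fun w => ∃ x ∈ Xs, s(x, w) ∈ Y) with hKl
      set R' := (R.erase z).filter (fun w => ¬ ∃ x ∈ Xs, s(x, w) ∈ Y) with hR'
      have hRX : Disjoint (R.erase z) Xs :=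
        Finset.disjoint_of_subset_left ((Finset.erase_subset _ _).trans
          (Finset.subset_union_right.trans hPC)) hCX
      have hKlcard := killed_le Y (R.erase z) Xs hRX
      rw [← hKl] at hKlcard
      have hsplitY : (Y.filter (fun e => ∀ x ∈ Xs, x ∉ e)).card +
          (Y.filter (fun e => ¬ ∀ x ∈ Xs, x ∉ e)).card = Y.card :=
        Finset.card_filter_add_card_filter_not _
      set o := (Y.filter (fun e => ∀ x ∈ Xs, x ∉ e)).card with ho
      have hcardR : Kl.card + R'.card = (R.erase z).card :=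
        Finset.card_filter_add_card_filter_not _
      have hcardR2 : (R.erase z).card + 1 = R.card := Finset.card_erase_add_one hz
      have hR'R : R' ⊆ R := (Finset.filter_subset _ _).trans (Finset.erase_subset _ _)
      have hzR' : z ∉ R' := by
        intro h; exact (Finset.mem_erase.1 (Finset.mem_filter.1 h).1).1 rfl
      have hzP : z ∉ P := fun h => Finset.disjoint_left.1 hPR h hz
      have hDD : insert z P ∪ R' ⊆ P ∪ R := by
        intro w hw
        rcases Finset.mem_union.1 hw with hw | hw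
        · rcases Finset.mem_insert.1 hw with rfl | hw
          · exact Finset.mem_union_right _ hz
          · exact Finset.mem_union_left _ hw
        · exact Finset.mem_union_right _ (hR'R hw)
      refine ih R' (insert z P) M' (B ∪ Y) (a + o) ?_ ?_ ?_ ?_ ?_ ?_ ?_ ?_ ?_ ?_ ?_ ?_ ?_
      · omega
      · exact hDD.trans hPC
      · rw [Finset.disjoint_insert_left]
        exact ⟨hzR', Finset.disjoint_of_subset_right hR'R hPR⟩
      · exact hdisj
      · exact Finset.union_subset hBe hYe
      · exact hM0.trans (Finset.subset_union_left.trans hM')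
      · exact hB1.trans Finset.subset_union_left
      · intro w hw x hx hmem
        rcases Finset.mem_union.1 hmem with h | h
        · exact hRB w (hR'R hw) x hx h
        · exact (Finset.mem_filter.1 hw).2 ⟨x, hx, h⟩
      · intro w hw x hx
        rcases Finset.mem_insert.1 hw with rfl | hw
        · exact hM' (Finset.mem_union_right _ (Finset.mem_image_of_mem _ hx))
        · exact hM' (Finset.mem_union_left _ (hP w hw x hx))
      · intro D hD
        have h1 := E2_union_le B Y D Xs hD
        have h2 := hE D hD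
        rw [← ho] at h1
        omega
      · intro w hw
        exact (degB_mono hDD w).trans (hdeg w (hR'R hw))
      · -- the potential inequality
        have hs1 : (∑ w ∈ insert z P, (degB B0 (insert z P ∪ R') w : ℤ)) ≤
            (degB B0 (P ∪ R) z : ℤ) + ∑ w ∈ P, (degB B0 (P ∪ R) w : ℤ) := by
          rw [← Finset.sum_insert hzP (f := fun w => (degB B0 (P ∪ R) w : ℤ))]
          apply Finset.sum_le_sum
          intro w _
          exact_mod_cast degB_mono hDD w
        have hs2 : (∑ w ∈ R', (degB B0 (insert z P ∪ R') w : ℤ)) ≤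
            ∑ w ∈ R', (degB B0 (P ∪ R) w : ℤ) := by
          apply Finset.sum_le_sum
          intro w _
          exact_mod_cast degB_mono hDD w
        have hs3 : (∑ w ∈ R, (degB B0 (P ∪ R) w : ℤ)) = (degB B0 (P ∪ R) z : ℤ) +
            (∑ w ∈ Kl, (degB B0 (P ∪ R) w : ℤ) + ∑ w ∈ R', (degB B0 (P ∪ R) w : ℤ)) := by
          rw [hKl, hR', Finset.sum_filter_add_sum_filter_not]
          rw [Finset.add_sum_erase R (fun w => (degB B0 (P ∪ R) w : ℤ)) hz]
        have hs4 : (Kl.card : ℤ) * (degB B0 (P ∪ R) z : ℤ) ≤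
            ∑ w ∈ Kl, (degB B0 (P ∪ R) w : ℤ) := by
          rw [← nsmul_eq_mul, ← Finset.sum_const]
          apply Finset.sum_le_sum
          intro w hw
          have : w ∈ R := Finset.erase_subset _ _ (Finset.mem_filter.1 hw).1
          exact_mod_cast hzmin w this
        have hdz : (degB B0 (P ∪ R) z : ℤ) ≤ 2 * ((b : ℤ) + 1) := by
          exact_mod_cast hdeg z hz
        have hko : (Kl.card : ℤ) + o ≤ b := by
          have : Kl.card + o ≤ b := by omega
          exact_mod_cast this
        have hRc : (R.card : ℤ) = 1 + Kl.card + R'.card := by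
          have : R.card = 1 + Kl.card + R'.card := by omega
          exact_mod_cast this
        have hPc : ((insert z P).card : ℤ) = P.card + 1 := by
          rw [Finset.card_insert_of_notMem hzP]; push_cast; ring
        rw [hPc]
        push_cast
        set dz : ℤ := (degB B0 (P ∪ R) z : ℤ) with hdzdef
        set κ : ℤ := (Kl.card : ℤ) with hκ
        set oz : ℤ := (o : ℤ) with hoz
        have hoz0 : 0 ≤ oz := by positivity
        have hb0 : (0 : ℤ) ≤ (b : ℤ) + 1 := by positivity
        rw [hs3, hRc] at hg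
        have hF : 2 * ((b : ℤ) + 1) ≤ 4 * ((b : ℤ) + 1) - dz := by linarith
        have key : 0 ≤ ((b : ℤ) - κ) * (4 * ((b : ℤ) + 1) - dz) - 2 * ((b : ℤ) + 1) * oz := by
          have h1 : oz * (4 * ((b : ℤ) + 1) - dz) ≤ ((b : ℤ) - κ) * (4 * ((b : ℤ) + 1) - dz) := by
            apply mul_le_mul_of_nonneg_right
            · linarith
            · linarith
          have h2 : oz * (2 * ((b : ℤ) + 1)) ≤ oz * (4 * ((b : ℤ) + 1) - dz) :=
            mul_le_mul_of_nonneg_left hF hoz0
          linarith
        have hm1 := mul_le_mul_of_nonneg_left hs1 hb0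
        nlinarith [key, hs4, hs2, hm1, hg]
      · have h1 : (B ∪ Y).card ≤ B.card + Y.card := Finset.card_union_le _ _
        have h2 : b * (r + 1) = b * r + b := by ring
        omega

end Pool.Agent.Helper25.CliqueGame
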