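import Mathlib
import Pool.Agent.Helper25.CliqueGame.Lower

set_option autoImplicit false

namespace Pool.Agent.Helper25.CliqueGame

open Finset

variable {N : ℕ}

theorem degB_le_erase (B : Finset (Sym2 (Fin N))) (D : Finset (Fin N)) (z w : Fin N) :
    degB B (D.erase z) w + (if s(w, z) ∈ B ∧ z ∈ D then 1 else 0) = degB B D w := by
  unfold degB
  rw [Finset.filter_erase]
  by_cases h : s(w, z) ∈ B ∧ z ∈ D
  · rw [if_pos h]
    exact Finset.card_erase_add_one (Finset.mem_filter.2 ⟨h.2, h.1⟩)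
  · rw [if_neg h, Finset.erase_eq_of_notMem]
    · rfl
    · intro h'
      exact h ⟨(Finset.mem_filter.1 h').2, (Finset.mem_filter.1 h').1⟩

theorem E2_erase {B : Finset (Sym2 (Fin N))} (hB : B ⊆ edges N) (D : Finset (Fin N)) {z : Fin N}
    (hz : z ∈ D) : E2 B (D.erase z) + 2 * degB B D z = E2 B D := by
  have h1 : E2 B D = degB B D z + ∑ w ∈ D.erase z, degB B D w := by
    unfold E2; rw [Finset.add_sum_erase D _ hz]
  have h2 : ∑ w ∈ D.erase z, degB B D w = E2 B (D.erase z) +
      ∑ w ∈ D.erase z, (if s(w, z) ∈ B ∧ z ∈ D then 1 else 0) := by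
    unfold E2
    rw [← Finset.sum_add_distrib]
    exact Finset.sum_congr rfl fun w _ => (degB_le_erase B D z w).symm
  have h3 : ∑ w ∈ D.erase z, (if s(w, z) ∈ B ∧ z ∈ D then 1 else 0) = degB B D z := by
    rw [← Finset.card_filter]
    unfold degB
    congr 1
    ext w
    simp only [mem_filter, mem_erase]
    constructor
    · rintro ⟨⟨_, h⟩, h', _⟩
      exact ⟨h, by rw [Sym2.eq_swap]; exact h'⟩
    · rintro ⟨h, h'⟩
      refine ⟨⟨?_, h⟩, by rw [Sym2.eq_swap]; exact h', hz⟩
      rintro rfl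
      exact (mem_edges.1 (hB h')) rfl
  omega

/-- the potential of a candidate set -/
def Psi (b : ℕ) (B : Finset (Sym2 (Fin N))) (D : Finset (Fin N)) : ℤ :=
  4 * ((b : ℤ) + 1) * D.card - E2 B D

theorem prune (b : ℕ) {B : Finset (Sym2 (Fin N))} (hB : B ⊆ edges N) (C : Finset (Fin N)) :
    ∃ C1 ⊆ C, Psi b B C ≤ Psi b B C1 ∧ ∀ z ∈ C1, degB B C1 z ≤ 2 * (b + 1) := by
  obtain ⟨C1, hC1, hmax⟩ := Finset.exists_max_image C.powerset (fun D => Psi b B D)
    ⟨C, Finset.mem_powerset_self C⟩
  refine ⟨C1, Finset.mem_powerset.1 hC1, hmax C (Finset.mem_powerset_self C), fun z hz => ?_⟩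
  have h1 := hmax (C1.erase z) (Finset.mem_powerset.2
    ((Finset.erase_subset _ _).trans (Finset.mem_powerset.1 hC1)))
  have h2 := E2_erase hB C1 hz
  have h3 : (C1.erase z).card + 1 = C1.card := Finset.card_erase_add_one hz
  unfold Psi at h1
  have h2' : (E2 B (C1.erase z) : ℤ) + 2 * (degB B C1 z : ℤ) = E2 B C1 := by exact_mod_cast h2
  have h3' : ((C1.erase z).card : ℤ) = C1.card - 1 := by
    have : ((C1.erase z).card : ℤ) + 1 = C1.card := by exact_mod_cast h3
    linarith
  rw [h3'] at h1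
  have : (degB B C1 z : ℤ) ≤ 2 * ((b : ℤ) + 1) := by nlinarith
  exact_mod_cast this

/-- `K` is a clique all of whose edges belong to `M` -/
def IsClq (M : Finset (Sym2 (Fin N))) (K : Finset (Fin N)) : Prop :=
  ∀ u ∈ K, ∀ v ∈ K, u ≠ v → s(u, v) ∈ M

/-- Maker can build a clique of `k` vertices quickly inside every set of at least `s0` vertices of
small Breaker degrees. -/
def Builder (N m b k s0 τ : ℕ) : Prop :=
  ∀ (M B : Finset (Sym2 (Fin N))) (C : Finset (Fin N)), Disjoint M B → B ⊆ edges N →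
    s0 ≤ C.card → (∀ z ∈ C, degB B C z ≤ 2 * (b + 1)) →
    Reach (edges N) m b (fun M' B' => Disjoint M' B' ∧ B' ⊆ edges N ∧ M ⊆ M' ∧ B ⊆ B' ∧
      B'.card ≤ B.card + τ ∧ ∃ K ⊆ C, K.card = k ∧ IsClq M' K) M B

theorem builder_one (m b : ℕ) : Builder N m b 1 1 0 := by
  intro M B C hMB hB hC _
  apply Reach.here
  obtain ⟨x, hx⟩ := Finset.card_pos.1 (lt_of_lt_of_le zero_lt_one hC)
  refine ⟨hMB, hB, Finset.Subset.refl _, Finset.Subset.refl _, le_rfl, {x}, by simpa using hx,
    by simp, ?_⟩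
  intro u hu v hv huv
  rw [Finset.mem_singleton] at hu hv
  exact absurd (hu.trans hv.symm) huv

/-- the loss constant of a stage -/
def lossC (b k τ : ℕ) : ℕ := 4 * (b + 1) * (k * (2 * b + 3)) + 6 * (b + 1) * τ

theorem outer {m b k s0 τ : ℕ} (hb : 0 < b) (hkm : k ≤ m) (hbuild : Builder N m b k s0 τ) (T : ℕ)
    (hT : lossC b k τ + 4 * (b + 1) * s0 ≤ T) :
    ∀ (j : ℕ) (K C : Finset (Fin N)) (M B : Finset (Sym2 (Fin N))) (β s : ℕ), Disjoint M B →
      B ⊆ edges N → IsClq M K → (∀ u ∈ K, ∀ v ∈ C, s(u, v) ∈ M) → Disjoint K C →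
      ((T : ℤ) * ((b : ℤ) + 1) ^ j - lossC b k τ ≤ Psi b B C) → C.card ≤ s →
      B.card + j * (τ + b * s) ≤ β →
      Reach (edges N) m b (fun M' B' => Disjoint M' B' ∧ B' ⊆ edges N ∧ M ⊆ M' ∧ B ⊆ B' ∧
        B'.card ≤ β ∧ ∃ K' ⊆ K ∪ C, K'.card = K.card + k * j ∧ IsClq M' K') M B := by
  intro j
  induction j with
  | zero =>
    intro K C M B β s hMB hB hK _ _ _ _ hβ
    apply Reach.here
    exact ⟨hMB, hB, Finset.Subset.refl _, Finset.Subset.refl _, by omega, K,
      Finset.subset_union_left, by simp, hK⟩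
  | succ j ih =>
    intro K C M B β s hMB hB hK hKC hdis hPsi hCs hβ
    obtain ⟨C1, hC1C, hC1Psi, hC1deg⟩ := prune b hB C
    have hbz : (0 : ℤ) < b := by exact_mod_cast hb
    have hpow1 : (1 : ℤ) ≤ ((b : ℤ) + 1) ^ j := one_le_pow₀ (by linarith)
    have hTz : (lossC b k τ : ℤ) + 4 * ((b : ℤ) + 1) * s0 ≤ T := by exact_mod_cast hT
    have hTnn : (0 : ℤ) ≤ T := by positivity
    have hpowj : (T : ℤ) * ((b : ℤ) + 1) ^ (j + 1) = T * ((b : ℤ) + 1) ^ j * ((b : ℤ) + 1) := by
      rw [pow_succ]; ring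
    have hTpow : (T : ℤ) ≤ T * ((b : ℤ) + 1) ^ j := by nlinarith
    -- C1 is large
    have hs0 : s0 ≤ C1.card := by
      have h1 : Psi b B C1 ≤ 4 * ((b : ℤ) + 1) * C1.card := by
        unfold Psi
        have : (0 : ℤ) ≤ E2 B C1 := by positivity
        linarith
      have h2 : (T : ℤ) * ((b : ℤ) + 1) ^ (j + 1) - lossC b k τ ≤
          4 * ((b : ℤ) + 1) * C1.card := le_trans hPsi (le_trans hC1Psi h1)
      have h3 : 4 * ((b : ℤ) + 1) * s0 ≤ 4 * ((b : ℤ) + 1) * C1.card := by
        rw [hpowj] at h2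
        nlinarith
      have h4 : (s0 : ℤ) ≤ C1.card := le_of_mul_le_mul_left h3 (by linarith)
      exact_mod_cast h4
    refine (hbuild M B C1 hMB hB hs0 hC1deg).bind ?_
    rintro M1 B1 ⟨hMB1, hB1e, hMM1, hBB1, hB1c, Xs, hXsC, hXsk, hXsclq⟩
    set D0 := (C1 \ Xs).filter (fun z => ∀ x ∈ Xs, s(x, z) ∉ B1) with hD0
    have hD0sub : D0 ⊆ C1 \ Xs := Finset.filter_subset _ _
    have hdisC : Disjoint (C1 \ Xs) Xs := Finset.sdiff_disjoint
    -- number of new Breaker edges
    have hnew : (B1 \ B).card ≤ τ := by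
      rw [Finset.card_sdiff_of_subset hBB1]; omega
    -- size of D0
    have hD0card : C1.card ≤ D0.card + (k * (2 * b + 3) + τ) := by
      have hcover : C1 ⊆ (D0 ∪ Xs) ∪ ((Xs.biUnion (fun x => C1.filter (fun w => s(x, w) ∈ B))) ∪
          ((C1 \ Xs).filter (fun w => ∃ x ∈ Xs, s(x, w) ∈ B1 \ B))) := by
        intro w hw
        by_cases hwX : w ∈ Xs
        · exact Finset.mem_union_left _ (Finset.mem_union_right _ hwX)
        by_cases hwD : w ∈ D0
        · exact Finset.mem_union_left _ (Finset.mem_union_left _ hwD)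
        apply Finset.mem_union_right
        have hw' : w ∈ C1 \ Xs := Finset.mem_sdiff.2 ⟨hw, hwX⟩
        have : ∃ x ∈ Xs, s(x, w) ∈ B1 := by
          by_contra hcon
          push Not at hcon
          exact hwD (Finset.mem_filter.2 ⟨hw', hcon⟩)
        obtain ⟨x, hx, hxw⟩ := this
        by_cases hxB : s(x, w) ∈ B
        · exact Finset.mem_union_left _ (Finset.mem_biUnion.2 ⟨x, hx, Finset.mem_filter.2 ⟨hw, hxB⟩⟩)
        · exact Finset.mem_union_right _ (Finset.mem_filter.2
            ⟨hw', x, hx, Finset.mem_sdiff.2 ⟨hxw, hxB⟩⟩)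
      have h1 := (Finset.card_le_card hcover).trans (Finset.card_union_le _ _)
      have h2 := Finset.card_union_le D0 Xs
      have h3 := Finset.card_union_le (Xs.biUnion (fun x => C1.filter (fun w => s(x, w) ∈ B)))
          ((C1 \ Xs).filter (fun w => ∃ x ∈ Xs, s(x, w) ∈ B1 \ B))
      have h4 : (Xs.biUnion (fun x => C1.filter (fun w => s(x, w) ∈ B))).card ≤
          Xs.card * (2 * (b + 1)) := by
        apply Finset.card_biUnion_le_card_mul
        intro x hx
        exact hC1deg x (hXsC hx)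
      have h5 := killed_le (B1 \ B) (C1 \ Xs) Xs hdisC
      have h6 : ((B1 \ B).filter (fun e => ¬ ∀ x ∈ Xs, x ∉ e)).card ≤ (B1 \ B).card :=
        Finset.card_filter_le _ _
      rw [hXsk] at h2 h4
      have h7 : k * (2 * b + 3) = k + k * (2 * (b + 1)) := by ring
      omega
    have hD0C1 : D0 ⊆ C1 := hD0sub.trans Finset.sdiff_subset
    have hE2mono : (E2 B D0 : ℤ) ≤ E2 B C1 := by
      have : E2 B D0 ≤ E2 B C1 := by
        unfold E2
        calc ∑ z ∈ D0, degB B D0 z ≤ ∑ z ∈ D0, degB B C1 z :=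
              Finset.sum_le_sum fun z _ => degB_mono hD0C1 z
          _ ≤ ∑ z ∈ C1, degB B C1 z := Finset.sum_le_sum_of_subset hD0C1
      exact_mod_cast this
    have hstage := stage_inner (m := m) (b := b) Xs (C1 \ Xs) (by rw [hXsk]; exact hkm) hdisC
      B B1 M1 (Psi b B C1 - lossC b k τ) (B.card + (τ + b * s)) D0.card D0 ∅ M1 B1 τ le_rfl
      (by rw [Finset.empty_union]; exact hD0sub) (Finset.disjoint_empty_left _) hMB1 hB1e
      (Finset.Subset.refl _) (Finset.Subset.refl _)
      (fun z hz x hx => (Finset.mem_filter.1 hz).2 x hx) (by simp)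
      (by
        intro D hD
        have h1 := E2_union_le B (B1 \ B) D Xs hD
        rw [Finset.union_sdiff_of_subset hBB1] at h1
        have h2 : ((B1 \ B).filter (fun e => ∀ x ∈ Xs, x ∉ e)).card ≤ (B1 \ B).card :=
          Finset.card_filter_le _ _
        omega)
      (by
        intro z hz
        rw [Finset.empty_union]
        exact (degB_mono hD0C1 z).trans (hC1deg z (hD0C1 hz)))
      (by
        simp only [Finset.empty_union, Finset.card_empty, Finset.sum_empty]
        have h1 : (∑ z ∈ D0, (degB B D0 z : ℤ)) = (E2 B D0 : ℤ) := by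
          unfold E2; push_cast; rfl
        rw [h1]
        unfold Psi lossC
        have h2 : (C1.card : ℤ) ≤ D0.card + (k * (2 * b + 3) + τ) := by exact_mod_cast hD0card
        have hb1 : (0 : ℤ) ≤ 4 * ((b : ℤ) + 1) := by positivity
        have h3 := mul_le_mul_of_nonneg_left h2 hb1
        push_cast at h3 ⊢
        nlinarith)
      (by
        have h1 : D0.card ≤ s := (Finset.card_le_card (hD0C1.trans hC1C)).trans hCs
        have h2 : b * D0.card ≤ b * s := Nat.mul_le_mul_left b h1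
        omega)
    refine hstage.bind ?_
    rintro M2 B2 ⟨hMB2, hB2e, hM12, hB12, hB2c, P, hPC, hPM, hPPsi⟩
    have hPC1 : P ⊆ C1 := hPC.trans Finset.sdiff_subset
    have hXsC' : Xs ⊆ C := hXsC.trans hC1C
    have hKX : Disjoint K Xs := Finset.disjoint_of_subset_right hXsC' hdis
    have hnext := ih (K ∪ Xs) P M2 B2 β s hMB2 hB2e
      (by
        intro u hu v hv huv
        rcases Finset.mem_union.1 hu with hu | hu
        · rcases Finset.mem_union.1 hv with hv | hv
          · exact hM12 (hMM1 (hK u hu v hv huv))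
          · exact hM12 (hMM1 (hKC u hu v (hXsC' hv)))
        · rcases Finset.mem_union.1 hv with hv | hv
          · rw [Sym2.eq_swap]; exact hM12 (hMM1 (hKC v hv u (hXsC' hu)))
          · exact hM12 (hXsclq u hu v hv huv))
      (by
        intro u hu v hv
        rcases Finset.mem_union.1 hu with hu | hu
        · exact hM12 (hMM1 (hKC u hu v (hC1C (hPC1 hv))))
        · exact hPM v hv u hu)
      (by
        rw [Finset.disjoint_union_left]
        refine ⟨Finset.disjoint_of_subset_right (hPC1.trans hC1C) hdis, ?_⟩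
        exact (Finset.disjoint_of_subset_left hPC hdisC).symm)
      (by
        have h1 : Psi b B C1 - lossC b k τ ≤ ((b : ℤ) + 1) * Psi b B2 P := hPPsi
        have h2 : (T : ℤ) * ((b : ℤ) + 1) ^ (j + 1) - lossC b k τ - lossC b k τ ≤
            ((b : ℤ) + 1) * Psi b B2 P := by linarith
        rw [hpowj] at h2
        have h3 : ((b : ℤ) + 1) * (T * ((b : ℤ) + 1) ^ j - lossC b k τ) ≤
            ((b : ℤ) + 1) * Psi b B2 P := by
          have h4 : (0 : ℤ) ≤ lossC b k τ := by positivity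
          nlinarith
        exact le_of_mul_le_mul_left h3 (by linarith))
      ((Finset.card_le_card (hPC1.trans hC1C)).trans hCs)
      (by
        have : (j + 1) * (τ + b * s) = j * (τ + b * s) + (τ + b * s) := by ring
        omega)
    refine hnext.bind ?_
    rintro M3 B3 ⟨hMB3, hB3e, hM23, hB23, hB3c, K', hK'sub, hK'card, hK'clq⟩
    apply Reach.here
    refine ⟨hMB3, hB3e, hMM1.trans (hM12.trans hM23), hBB1.trans (hB12.trans hB23), hB3c, K',
      ?_, ?_, hK'clq⟩
    · refine hK'sub.trans ?_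
      apply Finset.union_subset
      · exact Finset.union_subset Finset.subset_union_left
          (hXsC'.trans Finset.subset_union_right)
      · exact (hPC1.trans hC1C).trans Finset.subset_union_right
    · rw [hK'card, Finset.card_union_of_disjoint hKX, hXsk]; ring

end Pool.Agent.Helper25.CliqueGame
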