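import Mathlib
import Pool.Agent.Helper25.CliqueGame.Defs

set_option autoImplicit false

namespace Pool.Agent.Helper25.CliqueGame

open Finset

section general

variable {α : Type*} [DecidableEq α]

theorem Forces.mono {W W' : Finset α → Prop} (h : ∀ M, W M → W' M) {board : Finset α} {m b : ℕ} :
    ∀ (n : ℕ) (M B : Finset α), Forces W board m b n M B → Forces W' board m b n M B := by
  intro n
  induction n with
  | zero => intro M B hM; exact h M hM
  | succ n ih =>
    intro M B hM
    obtain ⟨X, hX, hY⟩ := hM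
    exact ⟨X, hX, fun Y hY' => ih _ _ (hY Y hY')⟩

/-- potential of a family -/
noncomputable def phi (ν : ℝ) (F : Finset (Finset α)) (M B : Finset α) : ℝ :=
  ∑ A ∈ F.filter (fun A => Disjoint A B), ν ^ (A \ M).card

/-- potential of an element -/
noncomputable def phiAt (ν : ℝ) (F : Finset (Finset α)) (M B : Finset α) (x : α) : ℝ :=
  ∑ A ∈ F.filter (fun A => Disjoint A B ∧ x ∈ A), ν ^ (A \ M).card

theorem phiAt_nonneg {ν : ℝ} (hν : 0 ≤ ν) (F : Finset (Finset α)) (M B : Finset α) (x : α) :
    0 ≤ phiAt ν F M B x := Finset.sum_nonneg fun _ _ => pow_nonneg hν _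

theorem phiAt_le_phi {ν : ℝ} (hν : 0 ≤ ν) (F : Finset (Finset α)) (M B : Finset α) (x : α) :
    phiAt ν F M B x ≤ phi ν F M B := by
  unfold phiAt phi
  apply Finset.sum_le_sum_of_subset_of_nonneg
  · intro A hA
    simp only [mem_filter] at hA ⊢
    exact ⟨hA.1, hA.2.1⟩
  · intro A _ _; exact pow_nonneg hν _

theorem phi_insert {ν : ℝ} (F : Finset (Finset α)) (M B : Finset α) (y : α) :
    phi ν F M (insert y B) = phi ν F M B - phiAt ν F M B y := by
  unfold phi phiAt
  have h : F.filter (fun A => Disjoint A B) =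
      F.filter (fun A => Disjoint A (insert y B)) ∪ F.filter (fun A => Disjoint A B ∧ y ∈ A) := by
    ext A
    simp only [mem_filter, mem_union, disjoint_insert_right]
    tauto
  rw [h, Finset.sum_union]
  · ring
  · rw [Finset.disjoint_left]
    intro A hA hA'
    simp only [mem_filter, disjoint_insert_right] at hA hA'
    exact hA.2.1 hA'.2.2

theorem phiAt_anti {ν : ℝ} (hν : 0 ≤ ν) (F : Finset (Finset α)) (M : Finset α) {B B' : Finset α}
    (h : B ⊆ B') (x : α) : phiAt ν F M B' x ≤ phiAt ν F M B x := by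
  unfold phiAt
  apply Finset.sum_le_sum_of_subset_of_nonneg
  · intro A hA
    simp only [mem_filter] at hA ⊢
    exact ⟨hA.1, Finset.disjoint_of_subset_right h hA.2.1, hA.2.2⟩
  · intro A _ _; exact pow_nonneg hν _

theorem pow_ineq {μ : ℝ} (hμ : 1 ≤ μ) {j m : ℕ} (h : j ≤ m) :
    (m : ℝ) * (μ ^ j - 1) ≤ j * (μ ^ m - 1) := by
  induction m, h using Nat.le_induction with
  | base => exact le_rfl
  | succ m hm ih =>
    have h1 : μ ^ j - 1 ≤ j * μ ^ m * (μ - 1) := by
      rw [← geom_sum_mul]
      apply mul_le_mul_of_nonneg_right _ (by linarith)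
      calc ∑ i ∈ range j, μ ^ i ≤ ∑ i ∈ range j, μ ^ m := by
            apply Finset.sum_le_sum
            intro i hi
            exact pow_le_pow_right₀ hμ (by have := mem_range.1 hi; omega)
        _ = j * μ ^ m := by simp
    have h2 : μ ^ (m + 1) = μ ^ m * μ := pow_succ _ _
    rw [h2]
    push_cast
    nlinarith

/-- Effect of a move of Maker. -/
theorem phi_maker {ν : ℝ} (hν : 0 < ν) (hν1 : ν ≤ 1) {m b : ℕ} (hm : 0 < m)
    (hmb : ν ^ m * (1 + b) = 1) (F : Finset (Finset α)) (M B X : Finset α) (hX : X.card ≤ m)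
    (hXM : Disjoint X M) :
    phi ν F (M ∪ X) B ≤ phi ν F M B + (b : ℝ) / m * ∑ x ∈ X, phiAt ν F M B x := by
  have hsum : ∑ x ∈ X, phiAt ν F M B x =
      ∑ A ∈ F.filter (fun A => Disjoint A B), ((A ∩ X).card : ℝ) * ν ^ (A \ M).card := by
    have h1 : ∀ x, phiAt ν F M B x = ∑ A ∈ F.filter (fun A => Disjoint A B),
        if x ∈ A then ν ^ (A \ M).card else 0 := by
      intro x
      unfold phiAt
      rw [← Finset.sum_filter]
      congr 1
      rw [Finset.filter_filter]
    simp only [h1]
    rw [Finset.sum_comm]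
    apply Finset.sum_congr rfl
    intro A _
    rw [← Finset.sum_filter, Finset.sum_const, nsmul_eq_mul]
    congr 2
    rw [Finset.inter_comm, Finset.filter_mem_eq_inter]
  rw [hsum]
  unfold phi
  rw [Finset.mul_sum, ← Finset.sum_add_distrib]
  apply Finset.sum_le_sum
  intro A _
  have hj : (A ∩ X).card ≤ m := le_trans (Finset.card_le_card Finset.inter_subset_right) hX
  have hcard : (A \ M).card = (A \ (M ∪ X)).card + (A ∩ X).card := by
    have : A \ M = (A \ (M ∪ X)) ∪ (A ∩ X) := by
      ext a
      have hd : a ∈ X → a ∉ M := fun h => Finset.disjoint_left.1 hXM h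
      simp only [mem_sdiff, mem_union, mem_inter]
      tauto
    rw [this, Finset.card_union_of_disjoint]
    rw [Finset.disjoint_left]
    intro a ha ha'
    simp only [mem_sdiff, mem_union, mem_inter] at ha ha'
    tauto
  set j := (A ∩ X).card with hjdef
  set c := (A \ (M ∪ X)).card with hc
  rw [hcard, pow_add]
  have hνinv : 1 ≤ ν⁻¹ := (one_le_inv₀ hν).2 hν1
  have hineq := pow_ineq hνinv hj
  have hm' : (ν⁻¹) ^ m = 1 + b := by
    rw [inv_pow]
    have : ν ^ m ≠ 0 := (pow_pos hν m).ne'
    field_simp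
    linarith
  rw [hm'] at hineq
  have hνj : 0 < ν ^ j := pow_pos hν j
  have hinv : (ν⁻¹) ^ j * ν ^ j = 1 := by rw [← mul_pow, inv_mul_cancel₀ hν.ne', one_pow]
  have hmpos : (0 : ℝ) < m := by exact_mod_cast hm
  -- 1 ≤ ν^j * (1 + b/m * j)
  have hkey : 1 ≤ ν ^ j * (1 + (b : ℝ) / m * j) := by
    have h3 : (ν⁻¹) ^ j ≤ 1 + (b : ℝ) / m * j := by
      have : (m : ℝ) * ((ν⁻¹) ^ j - 1) ≤ m * ((b : ℝ) / m * j) := by
        rw [show (m : ℝ) * ((b : ℝ) / m * j) = b * j by field_simp]
        linarith
      have := le_of_mul_le_mul_left this hmpos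
      linarith
    calc (1 : ℝ) = (ν⁻¹) ^ j * ν ^ j := hinv.symm
      _ ≤ (1 + (b : ℝ) / m * j) * ν ^ j := mul_le_mul_of_nonneg_right h3 hνj.le
      _ = _ := by ring
  have hc0 : 0 < ν ^ c := pow_pos hν c
  calc ν ^ c = ν ^ c * 1 := (mul_one _).symm
    _ ≤ ν ^ c * (ν ^ j * (1 + (b : ℝ) / m * j)) := mul_le_mul_of_nonneg_left hkey hc0.le
    _ = _ := by ring

/-- Breaker's greedy reply. -/
theorem phi_breaker {ν : ℝ} (hν : 0 ≤ ν) (F : Finset (Finset α)) (board M B : Finset α) (k : ℕ) :
    ∃ Y, Legal board M B k Y ∧ phi ν F M (B ∪ Y) ≤ phi ν F M B ∧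
      ∀ x ∈ board \ (M ∪ (B ∪ Y)), phi ν F M (B ∪ Y) + k * phiAt ν F M (B ∪ Y) x ≤ phi ν F M B := by
  induction k with
  | zero => exact ⟨∅, ⟨by simp, by simp⟩, by simp, by intro x _; simp⟩
  | succ k ih =>
    obtain ⟨Y, ⟨hY1, hY2⟩, hY3, hY4⟩ := ih
    by_cases hne : (board \ (M ∪ (B ∪ Y))).Nonempty
    · obtain ⟨y, hy, hmax⟩ := Finset.exists_max_image (board \ (M ∪ (B ∪ Y)))
        (fun x => phiAt ν F M (B ∪ Y) x) hne
      have hyY : y ∉ Y := by
        simp only [mem_sdiff, mem_union, not_or] at hy
        exact hy.2.2.2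
      have hins : B ∪ insert y Y = insert y (B ∪ Y) := by
        ext a; simp only [mem_union, mem_insert]; tauto
      refine ⟨insert y Y, ⟨?_, ?_⟩, ?_, ?_⟩
      · intro a ha
        rcases Finset.mem_insert.1 ha with rfl | ha
        · simp only [mem_sdiff, mem_union, not_or] at hy ⊢
          exact ⟨hy.1, hy.2.1, hy.2.2.1⟩
        · exact hY1 ha
      · rw [Finset.card_insert_of_notMem hyY]
        have hsub : insert y Y ⊆ board \ (M ∪ B) := by
          intro a ha
          rcases Finset.mem_insert.1 ha with rfl | ha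
          · simp only [mem_sdiff, mem_union, not_or] at hy ⊢
            exact ⟨hy.1, hy.2.1, hy.2.2.1⟩
          · exact hY1 ha
        have hc := Finset.card_le_card hsub
        rw [Finset.card_insert_of_notMem hyY] at hc
        omega
      · rw [hins, phi_insert]
        have := phiAt_nonneg hν F M (B ∪ Y) y
        linarith
      · intro x hx
        rw [hins] at hx ⊢
        have hx' : x ∈ board \ (M ∪ (B ∪ Y)) := by
          simp only [mem_sdiff, mem_union, mem_insert, not_or] at hx ⊢
          exact ⟨hx.1, hx.2.1, hx.2.2.2.1, hx.2.2.2.2⟩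
        have h1 := hY4 y hy
        have h2 := hmax x hx'
        have h3 := phiAt_anti hν F M (Finset.subset_insert y (B ∪ Y)) x
        rw [phi_insert]
        push_cast
        have h4 : phiAt ν F M (insert y (B ∪ Y)) x ≤ phiAt ν F M (B ∪ Y) y := le_trans h3 h2
        nlinarith
    · rw [Finset.not_nonempty_iff_eq_empty] at hne
      refine ⟨Y, ⟨hY1, ?_⟩, hY3, ?_⟩
      · have hsub : board \ (M ∪ B) ⊆ Y := by
          intro a ha
          by_contra hcon
          have : a ∈ board \ (M ∪ (B ∪ Y)) := by
            simp only [mem_sdiff, mem_union, not_or] at ha ⊢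
            exact ⟨ha.1, ha.2.1, ha.2.2, hcon⟩
          rw [hne] at this
          simp at this
        have heq : Y = board \ (M ∪ B) := Finset.Subset.antisymm hY1 hsub
        have hc : Y.card = (board \ (M ∪ B)).card := by rw [← heq]
        omega
      · intro x hx
        rw [hne] at hx
        simp at hx

/-- The biased Erdős–Selfridge theorem: the potential does not increase. -/
theorem forces_potential {ν : ℝ} (hν : 0 < ν) (hν1 : ν ≤ 1) {m b : ℕ} (hm : 0 < m)
    (hmb : ν ^ m * (1 + b) = 1) (F : Finset (Finset α)) (board : Finset α)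
    {W : Finset α → Prop} (hW : ∀ M, W M → ∃ A ∈ F, A ⊆ M) :
    ∀ (n : ℕ) (M B : Finset α), Disjoint M B → (board \ (M ∪ B)).card ≤ n →
      phi ν F M B < 1 → (∀ x ∈ board \ (M ∪ B), phi ν F M B + b * phiAt ν F M B x < 1) →
      ¬ Forces W board m b n M B := by
  intro n
  induction n with
  | zero =>
    intro M B hMB _ hphi _ hforce
    obtain ⟨A, hA, hAM⟩ := hW M hforce
    have : (1 : ℝ) ≤ phi ν F M B := by
      unfold phi
      have hmem : A ∈ F.filter (fun A => Disjoint A B) := by
        simp only [mem_filter]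
        exact ⟨hA, Finset.disjoint_of_subset_left hAM hMB⟩
      have hval : ν ^ (A \ M).card = 1 := by
        rw [Finset.sdiff_eq_empty_iff_subset.2 hAM]; simp
      rw [← hval]
      exact Finset.single_le_sum (f := fun A => ν ^ (A \ M).card)
        (fun A _ => pow_nonneg hν.le _) hmem
    linarith
  | succ n ih =>
    intro M B hMB hcard hphi hmax hforce
    obtain ⟨X, ⟨hX1, hX2⟩, hXY⟩ := hforce
    obtain ⟨Y, hYl, hY3, hY4⟩ := phi_breaker hν.le F board (M ∪ X) B b
    have hXM : Disjoint X M := by
      rw [Finset.disjoint_left]; intro a ha haM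
      have := hX1 ha
      simp only [mem_sdiff, mem_union, not_or] at this
      exact this.2.1 haM
    have hXB : Disjoint X B := by
      rw [Finset.disjoint_left]; intro a ha haM
      have := hX1 ha
      simp only [mem_sdiff, mem_union, not_or] at this
      exact this.2.2 haM
    have hYM : Disjoint (M ∪ X) Y := by
      rw [Finset.disjoint_right]; intro a ha haM
      have := hYl.1 ha
      simp only [mem_sdiff, mem_union, not_or] at this haM
      tauto
    have hXm : X.card ≤ m := by rw [hX2]; exact min_le_left _ _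
    have hle := phi_maker hν hν1 hm hmb F M B X hXm hXM
    have hmpos : (0 : ℝ) < m := by exact_mod_cast hm
    -- potential after Maker's move is < 1
    have hlt : phi ν F (M ∪ X) B < 1 := by
      by_cases hXe : X.Nonempty
      · obtain ⟨x0, hx0, hx0max⟩ := Finset.exists_max_image X (fun x => phiAt ν F M B x) hXe
        have h1 : ∑ x ∈ X, phiAt ν F M B x ≤ m * phiAt ν F M B x0 := by
          calc ∑ x ∈ X, phiAt ν F M B x ≤ ∑ x ∈ X, phiAt ν F M B x0 :=
                Finset.sum_le_sum fun x hx => hx0max x hx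
            _ = X.card * phiAt ν F M B x0 := by simp
            _ ≤ m * phiAt ν F M B x0 := by
                apply mul_le_mul_of_nonneg_right _ (phiAt_nonneg hν.le _ _ _ _)
                exact_mod_cast hXm
        have h2 := hmax x0 (hX1 hx0)
        have h3 : (b : ℝ) / m * ∑ x ∈ X, phiAt ν F M B x ≤ b * phiAt ν F M B x0 := by
          calc (b : ℝ) / m * ∑ x ∈ X, phiAt ν F M B x ≤ (b : ℝ) / m * (m * phiAt ν F M B x0) :=
                mul_le_mul_of_nonneg_left h1 (by positivity)
            _ = b * phiAt ν F M B x0 := by field_simp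
        linarith
      · rw [Finset.not_nonempty_iff_eq_empty] at hXe
        rw [hXe] at hle
        simp at hle
        rw [hXe]
        simp
        linarith
    refine ih (M ∪ X) (B ∪ Y) ?_ ?_ ?_ ?_ (hXY Y hYl)
    · rw [Finset.disjoint_union_right]
      exact ⟨Finset.disjoint_union_left.2 ⟨hMB, hXB⟩, hYM⟩
    · by_cases h0 : (board \ (M ∪ B)).card = 0
      · have : board \ (M ∪ X ∪ (B ∪ Y)) ⊆ board \ (M ∪ B) := by
          intro a ha
          simp only [mem_sdiff, mem_union, not_or] at ha ⊢
          tauto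
        have := Finset.card_le_card this
        omega
      · have hXpos : 0 < X.card := by rw [hX2]; omega
        have : board \ (M ∪ X ∪ (B ∪ Y)) ⊆ (board \ (M ∪ B)) \ X := by
          intro a ha
          simp only [mem_sdiff, mem_union, not_or] at ha ⊢
          tauto
        have h1 := Finset.card_le_card this
        rw [Finset.card_sdiff_of_subset hX1] at h1
        omega
    · linarith
    · intro x hx
      have := hY4 x hx
      linarith

end general

end Pool.Agent.Helper25.CliqueGame
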