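import Mathlib
import Pool.Agent.Helper25.CliqueGame.Upper
import Pool.Agent.Helper25.CliqueGame.Outer

set_option autoImplicit false

namespace Pool.Agent.Helper25.CliqueGame

open Finset

theorem HasClique.mono_set {N q : ℕ} (M M' : Finset (Sym2 (Fin N))) (h : M ⊆ M')
    (hM : HasClique N q M) : HasClique N q M' := by
  obtain ⟨S, hS, hc⟩ := hM
  exact ⟨S, hS, fun u hu v hv huv => h (hc u hu v hv huv)⟩

theorem HasClique.mono_size {N q q' : ℕ} (h : q ≤ q') (M : Finset (Sym2 (Fin N)))
    (hM : HasClique N q' M) : HasClique N q M := by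
  obtain ⟨S, hS, hc⟩ := hM
  obtain ⟨T, hT, hTc⟩ := Finset.exists_subset_card_eq (hS ▸ h : q ≤ S.card)
  exact ⟨T, hTc, fun u hu v hv huv => hc u (hT hu) v (hT hv) huv⟩

theorem MakerWins.mono {N m b q q' : ℕ} (h : q ≤ q') (hw : MakerWins N m b q') :
    MakerWins N m b q :=
  Forces.mono (fun M hM => HasClique.mono_size h M hM) _ _ _ hw

theorem makerWins_value {N m b : ℕ} : MakerWins N m b (value N m b) := by
  classical
  have h0 : MakerWins N m b 0 :=
    forces_of_W (W := HasClique N 0) (fun M M' h hM => HasClique.mono_set M M' h hM) _ _ _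
      ⟨∅, rfl, by simp⟩
  unfold value
  exact Nat.findGreatest_spec (P := MakerWins N m b) (Nat.zero_le N) h0

theorem value_lt {N m b q : ℕ} (h : ¬ MakerWins N m b q) : value N m b < q := by
  by_contra hcon
  push Not at hcon
  exact h (makerWins_value.mono hcon)

/-! ### Breaker -/

/-- edge sets of `q`-cliques -/
def cliqueFam (N q : ℕ) : Finset (Finset (Sym2 (Fin N))) :=
  (powersetCard q (univ : Finset (Fin N))).image
    (fun S => (edges N).filter (fun e => ∀ x ∈ e, x ∈ S))

theorem card_clique_edges {N : ℕ} (S : Finset (Fin N)) :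
    ((edges N).filter (fun e => ∀ x ∈ e, x ∈ S)).card = S.card.choose 2 := by
  have : (edges N).filter (fun e => ∀ x ∈ e, x ∈ S) = S.offDiag.image (fun p => s(p.1, p.2)) := by
    ext e
    induction e using Sym2.ind with
    | h u v =>
      simp only [mem_filter, mem_edges, mem_image, mem_offDiag, Sym2.mem_iff]
      constructor
      · rintro ⟨huv, h⟩
        exact ⟨(u, v), ⟨h u (Or.inl rfl), h v (Or.inr rfl), huv⟩, rfl⟩
      · rintro ⟨⟨a, c⟩, ⟨ha, hc, hac⟩, heq⟩
        rcases Sym2.eq_iff.1 heq with ⟨h1, h2⟩ | ⟨h1, h2⟩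
        · simp only at h1 h2
          subst h1; subst h2
          refine ⟨hac, ?_⟩
          rintro x (rfl | rfl)
          · exact ha
          · exact hc
        · simp only at h1 h2
          subst h1; subst h2
          refine ⟨fun h => hac h.symm, ?_⟩
          rintro x (rfl | rfl)
          · exact hc
          · exact ha
  rw [this]
  exact Sym2.card_image_offDiag S

theorem breaker_wins {N m b q : ℕ} (hm : 0 < m) {ν : ℝ} (hν : 0 < ν) (hν1 : ν ≤ 1)
    (hmb : ν ^ m * (1 + b) = 1) (h : (1 + (b : ℝ)) * (N.choose q * ν ^ (q.choose 2)) < 1) :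
    ¬ MakerWins N m b q := by
  have hphi : phi ν (cliqueFam N q) ∅ ∅ ≤ N.choose q * ν ^ (q.choose 2) := by
    unfold phi
    have hall : ∀ A ∈ (cliqueFam N q).filter (fun A => Disjoint A ∅),
        ν ^ (A \ (∅ : Finset (Sym2 (Fin N)))).card = ν ^ (q.choose 2) := by
      intro A hA
      obtain ⟨S, hS, rfl⟩ := Finset.mem_image.1 (Finset.mem_filter.1 hA).1
      rw [Finset.sdiff_empty, card_clique_edges, (Finset.mem_powersetCard.1 hS).2]
    rw [Finset.sum_congr rfl hall, Finset.sum_const, nsmul_eq_mul]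
    apply mul_le_mul_of_nonneg_right _ (pow_nonneg hν.le _)
    have h1 : ((cliqueFam N q).filter (fun A => Disjoint A ∅)).card ≤ N.choose q := by
      refine (Finset.card_filter_le _ _).trans ?_
      refine Finset.card_image_le.trans ?_
      rw [Finset.card_powersetCard]; simp
    exact_mod_cast h1
  have hphi0 : 0 ≤ phi ν (cliqueFam N q) (∅ : Finset (Sym2 (Fin N))) ∅ := by
    unfold phi
    exact Finset.sum_nonneg fun A _ => pow_nonneg hν.le _
  have hb0 : (0 : ℝ) ≤ b := by positivity
  have hlt : (1 + (b : ℝ)) * phi ν (cliqueFam N q) ∅ ∅ < 1 :=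
    lt_of_le_of_lt (mul_le_mul_of_nonneg_left hphi (by linarith)) h
  unfold MakerWins
  apply forces_potential hν hν1 hm hmb (cliqueFam N q) (edges N)
  · rintro M ⟨S, hS, hc⟩
    refine ⟨_, Finset.mem_image_of_mem _ (Finset.mem_powersetCard.2 ⟨Finset.subset_univ S, hS⟩), ?_⟩
    intro e he
    induction e using Sym2.ind with
    | h u v =>
      simp only [mem_filter, mem_edges, Sym2.mem_iff] at he
      exact hc u (he.2 u (Or.inl rfl)) v (he.2 v (Or.inr rfl)) he.1
  · exact Finset.disjoint_empty_left _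
  · exact Finset.card_le_card Finset.sdiff_subset
  · nlinarith
  · intro x _
    have h1 := phiAt_le_phi hν.le (cliqueFam N q) (∅ : Finset (Sym2 (Fin N))) ∅ x
    have h2 := mul_le_mul_of_nonneg_left h1 hb0
    linarith

/-! ### Maker -/

theorem builder_gen (N : ℕ) {m b : ℕ} (hm : 0 < m) (hb : 0 < b) :
    ∃ s0 τ, Builder N m b m s0 τ ∧ s0 = (lossC b 1 0 + 4 * (b + 1)) * (b + 1) ^ m ∧
      τ = m * (b * s0) := by
  set T1 := lossC b 1 0 + 4 * (b + 1) with hT1
  refine ⟨T1 * (b + 1) ^ m, m * (b * (T1 * (b + 1) ^ m)), ?_, rfl, rfl⟩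
  intro M B C hMB hB hC hdeg
  obtain ⟨S0, hS0, hS0c⟩ := Finset.exists_subset_card_eq hC
  have hE : E2 B S0 ≤ (T1 * (b + 1) ^ m) * (2 * (b + 1)) := by
    unfold E2
    rw [← hS0c, ← smul_eq_mul, ← Finset.sum_const]
    exact Finset.sum_le_sum fun z hz => (degB_mono hS0 z).trans (hdeg z (hS0 hz))
  have h := outer (N := N) (m := m) (b := b) (k := 1) (s0 := 1) (τ := 0) hb hm (builder_one m b) T1
    (by rw [hT1]; omega) m ∅ S0 M B (B.card + m * (b * (T1 * (b + 1) ^ m))) (T1 * (b + 1) ^ m)
    hMB hB (by intro u hu; simp at hu) (by intro u hu; simp at hu)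
    (Finset.disjoint_empty_left _)
    (by
      unfold Psi
      rw [hS0c]
      have hE' : (E2 B S0 : ℤ) ≤ (T1 * ((b : ℤ) + 1) ^ m) * (2 * ((b : ℤ) + 1)) := by
        exact_mod_cast hE
      have h1 : (0 : ℤ) ≤ lossC b 1 0 := by positivity
      push_cast
      have h2 : (0 : ℤ) ≤ T1 * ((b : ℤ) + 1) ^ m := by positivity
      have h3 : (1 : ℤ) ≤ (b : ℤ) + 1 := by
        have : (0 : ℤ) ≤ b := by positivity
        linarith
      nlinarith)
    (le_of_eq hS0c)
    (by rw [Nat.zero_add])
  refine h.bind ?_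
  rintro M' B' ⟨h1, h2, h3, h4, h5, K', hK', hK'c, hK'q⟩
  apply Reach.here
  refine ⟨h1, h2, h3, h4, h5, K', ?_, ?_, hK'q⟩
  · rw [Finset.empty_union] at hK'
    exact hK'.trans hS0
  · simpa using hK'c

/-- The constant in Maker's bound. -/
def constT (m b : ℕ) : ℕ :=
  lossC b m (m * (b * ((lossC b 1 0 + 4 * (b + 1)) * (b + 1) ^ m))) +
    4 * (b + 1) * ((lossC b 1 0 + 4 * (b + 1)) * (b + 1) ^ m)

theorem maker_wins {N m b : ℕ} (hm : 0 < m) (hb : 0 < b) (j : ℕ)
    (hN : constT m b * (b + 1) ^ j ≤ N) : MakerWins N m b (m * j) := by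
  obtain ⟨s0, τ, hbuild, hs0, hτ⟩ := builder_gen N hm hb
  have hT : lossC b m τ + 4 * (b + 1) * s0 ≤ constT m b := by
    rw [hτ, hs0]; exact le_rfl
  have h := outer hb le_rfl hbuild (constT m b) hT j ∅ univ ∅ ∅
    (0 + j * (τ + b * N)) N (Finset.disjoint_empty_left _) (Finset.empty_subset _)
    (by intro u hu; simp at hu) (by intro u hu; simp at hu) (Finset.disjoint_empty_left _)
    (by
      unfold Psi
      have hE : E2 (∅ : Finset (Sym2 (Fin N))) univ = 0 := by
        unfold E2 degB; simp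
      rw [hE, Finset.card_univ, Fintype.card_fin]
      have h1 : (constT m b : ℤ) * ((b : ℤ) + 1) ^ j ≤ N := by exact_mod_cast hN
      have h2 : (0 : ℤ) ≤ lossC b m τ := by positivity
      have h3 : (0 : ℤ) ≤ N := by positivity
      have h4 : (0 : ℤ) ≤ b := by positivity
      push_cast
      nlinarith)
    (by rw [Finset.card_univ, Fintype.card_fin])
    (by rw [Finset.card_empty])
  have h' : Reach (edges N) m b (fun M _ => HasClique N (m * j) M) ∅ ∅ := by
    refine h.bind ?_
    rintro M' B' ⟨_, _, _, _, _, K', _, hK'c, hK'q⟩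
    apply Reach.here
    exact ⟨K', by simpa using hK'c, hK'q⟩
  exact h'.forces hm (fun M M' h hM => HasClique.mono_set M M' h hM) _
    (Finset.card_le_card Finset.sdiff_subset)

theorem constT_pos {m b : ℕ} (hm : 0 < m) : m ≤ constT m b := by
  unfold constT lossC
  have : m ≤ 4 * (b + 1) * (m * (2 * b + 3)) := by
    have h1 : 1 ≤ 4 * (b + 1) := by omega
    have h2 : 1 ≤ 2 * b + 3 := by omega
    calc m = 1 * (m * 1) := by ring
      _ ≤ 4 * (b + 1) * (m * (2 * b + 3)) :=
        Nat.mul_le_mul h1 (Nat.mul_le_mul_left m h2)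
  omega

theorem value_lower_nat {N m b : ℕ} (hm : 0 < m) (hb : 0 < b) (j : ℕ)
    (hN : constT m b * (b + 1) ^ j ≤ N) : m * j ≤ value N m b := by
  classical
  unfold value
  apply Nat.le_findGreatest _ (maker_wins hm hb j hN)
  have h1 : j < (b + 1) ^ j := Nat.lt_pow_self (by omega)
  calc m * j ≤ constT m b * (b + 1) ^ j := Nat.mul_le_mul (constT_pos hm) h1.le
    _ ≤ N := hN

/-- Maker's bound: `f_N(m,b) ≥ m log_{b+1} N - C`. -/
theorem value_lower {m b : ℕ} (hm : 1 ≤ m) (hb : 1 ≤ b) :
    ∃ C : ℝ, ∀ N : ℕ, 1 ≤ N → (m : ℝ) * Real.logb (b + 1) N - C ≤ value N m b := by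
  have hT0 : 0 < constT m b := lt_of_lt_of_le hm (constT_pos hm)
  have hT0' : (0 : ℝ) < constT m b := by exact_mod_cast hT0
  have hb1 : (1 : ℝ) < (b : ℝ) + 1 := by
    have : (0 : ℝ) < b := by exact_mod_cast hb
    linarith
  refine ⟨m * (Real.logb (b + 1) (constT m b) + 1), fun N hN => ?_⟩
  have hN0 : (0 : ℝ) < N := by exact_mod_cast hN
  have hm0 : (0 : ℝ) ≤ m := by positivity
  set x := Real.logb (b + 1) N - Real.logb (b + 1) (constT m b) with hx
  by_cases hx0 : x < 0
  · have h1 : (m : ℝ) * Real.logb (b + 1) N - m * (Real.logb (b + 1) (constT m b) + 1) =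
        m * (x - 1) := by rw [hx]; ring
    rw [h1]
    have h2 : (m : ℝ) * (x - 1) ≤ 0 := mul_nonpos_of_nonneg_of_nonpos hm0 (by linarith)
    exact h2.trans (by positivity)
  · push Not at hx0
    set j := ⌊x⌋₊ with hj
    have hjx : (j : ℝ) ≤ x := Nat.floor_le hx0
    have hxj : x < j + 1 := Nat.lt_floor_add_one x
    have hpow : ((b : ℝ) + 1) ^ j ≤ N / constT m b := by
      have h1 : x = Real.logb (b + 1) (N / constT m b) := by
        rw [hx, Real.logb_div hN0.ne' hT0'.ne']
      rw [← Real.rpow_natCast]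
      rw [← Real.le_logb_iff_rpow_le hb1 (by positivity)]
      rw [← h1]; exact hjx
    have hN' : constT m b * (b + 1) ^ j ≤ N := by
      rw [le_div_iff₀ hT0'] at hpow
      have : ((constT m b * (b + 1) ^ j : ℕ) : ℝ) ≤ N := by
        push_cast; linarith
      exact_mod_cast this
    have h1 := value_lower_nat hm hb j hN'
    have h2 : (m : ℝ) * j ≤ value N m b := by exact_mod_cast h1
    have h3 : (m : ℝ) * Real.logb (b + 1) N - m * (Real.logb (b + 1) (constT m b) + 1) =
        m * (x - 1) := by rw [hx]; ring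
    rw [h3]
    calc (m : ℝ) * (x - 1) ≤ m * j := mul_le_mul_of_nonneg_left (by linarith) hm0
      _ ≤ _ := h2

/-- Breaker's bound: `f_N(m,b) ≤ 2m (log_{b+1} N - log_{b+1} log N) + C`. -/
theorem value_upper {m b : ℕ} (hm : 1 ≤ m) (hb : 1 ≤ b) :
    ∃ C : ℝ, ∀ N : ℕ, 3 ≤ N → (value N m b : ℝ) ≤
      2 * m * (Real.logb (b + 1) N - Real.logb (b + 1) (Real.log N)) + C := by
  have hb0 : (0 : ℝ) < b := by exact_mod_cast hb
  have hm0 : (0 : ℝ) < m := by exact_mod_cast hm
  set L := Real.log ((b : ℝ) + 1) with hL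
  have hLpos : 0 < L := Real.log_pos (by linarith)
  set a := 2 * (m : ℝ) / L with ha
  have hapos : 0 < a := by positivity
  set C1 := 1 + a * (2 + L + |Real.log (a / 2)|) with hC1
  have hC1pos : 1 ≤ C1 := by
    have : 0 ≤ a * (2 + L + |Real.log (a / 2)|) := by positivity
    linarith
  refine ⟨C1 + 1, fun N hN => ?_⟩
  have hN3 : (3 : ℝ) ≤ N := by exact_mod_cast hN
  set x := Real.log N with hx
  have hx1 : 1 ≤ x := by
    rw [hx]
    have h1 : Real.exp 1 ≤ N := by
      have := Real.exp_one_lt_d9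
      linarith
    calc (1 : ℝ) = Real.log (Real.exp 1) := (Real.log_exp 1).symm
      _ ≤ Real.log N := Real.log_le_log (Real.exp_pos 1) h1
  have hx0 : 0 < x := by linarith
  -- log x ≤ x / 2
  have hlogx : Real.log x ≤ x / 2 := by
    have h1 : Real.log (Real.sqrt x) ≤ Real.sqrt x - 1 :=
      Real.log_le_sub_one_of_pos (Real.sqrt_pos.2 hx0)
    have h2 : Real.log (Real.sqrt x) = Real.log x / 2 := Real.log_sqrt hx0.le
    have h3 : Real.sqrt x ^ 2 = x := Real.sq_sqrt hx0.le
    nlinarith [sq_nonneg (Real.sqrt x - 2)]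
  set y := a * (x - Real.log x) + C1 with hy
  set q := ⌈y⌉₊ with hq
  have hy0 : 0 < y := by
    have : 0 ≤ a * (x - Real.log x) := mul_nonneg hapos.le (by linarith)
    linarith
  have hqy : y ≤ q := Nat.le_ceil y
  have hqy2 : (q : ℝ) < y + 1 := Nat.ceil_lt_add_one hy0.le
  have hq1 : (1 : ℝ) ≤ q := by
    have : 0 ≤ a * (x - Real.log x) := mul_nonneg hapos.le (by linarith)
    linarith
  have hq0 : (0 : ℝ) < q := by linarith
  have hqx : a / 2 * x ≤ q := by
    have h1 : a * (x / 2) ≤ a * (x - Real.log x) := mul_le_mul_of_nonneg_left (by linarith) hapos.le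
    linarith
  have hlogq : Real.log x + Real.log (a / 2) ≤ Real.log q := by
    rw [← Real.log_mul hx0.ne' (by positivity)]
    apply Real.log_le_log (by positivity)
    linarith
  -- main inequality
  have hmain : L + q * (1 + x - Real.log q) < q * (q - 1) / a := by
    have h1 : x - Real.log x + (2 + L + |Real.log (a / 2)|) ≤ (q - 1) / a := by
      rw [le_div_iff₀ hapos]
      calc (x - Real.log x + (2 + L + |Real.log (a / 2)|)) * a = y - 1 := by rw [hy, hC1]; ring
        _ ≤ q - 1 := by linarith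
    have h2 : -Real.log (a / 2) ≤ |Real.log (a / 2)| := neg_le_abs _
    have h3 : 1 + x - Real.log q + L < (q - 1) / a := by linarith
    have h4 : q * (1 + x - Real.log q + L) < q * ((q - 1) / a) := mul_lt_mul_of_pos_left h3 hq0
    have h5 : L ≤ q * L := by nlinarith
    calc L + q * (1 + x - Real.log q) ≤ q * (1 + x - Real.log q + L) := by linarith
      _ < q * ((q - 1) / a) := h4
      _ = q * (q - 1) / a := by ring
  have hnot : ¬ MakerWins N m b q := by
    set ν := Real.exp (-(L / m)) with hν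
    have hνpos : 0 < ν := Real.exp_pos _
    have hν1 : ν ≤ 1 := Real.exp_le_one_iff.2 (by
      have : 0 ≤ L / m := by positivity
      linarith)
    have hνm : ν ^ m * (1 + b) = 1 := by
      rw [hν, ← Real.exp_nat_mul]
      have h1 : (m : ℝ) * -(L / m) = -L := by field_simp
      rw [h1, Real.exp_neg, hL, Real.exp_log (by linarith)]
      field_simp
      ring
    apply breaker_wins hm hνpos hν1 hνm
    have hN0 : (0 : ℝ) < N := by linarith
    have hchoose : (N.choose q : ℝ) ≤ Real.exp (q * (1 + x - Real.log q)) := by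
      have h1 : (N.choose q : ℝ) ≤ (N : ℝ) ^ q / (Nat.factorial q) := Nat.choose_le_pow_div q N
      have h2 : (q : ℝ) ^ q / (Nat.factorial q) ≤ Real.exp q :=
        Real.pow_div_factorial_le_exp (q : ℝ) hq0.le q
      have hfac : (0 : ℝ) < Nat.factorial q := by exact_mod_cast Nat.factorial_pos q
      have hqq : (0 : ℝ) < (q : ℝ) ^ q := by positivity
      have h3 : (N : ℝ) ^ q / (Nat.factorial q) ≤ (N : ℝ) ^ q / (q : ℝ) ^ q * Real.exp q := by
        calc (N : ℝ) ^ q / (Nat.factorial q) =
              (N : ℝ) ^ q / (q : ℝ) ^ q * ((q : ℝ) ^ q / (Nat.factorial q)) := by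
                field_simp
          _ ≤ _ := mul_le_mul_of_nonneg_left h2 (by positivity)
      have h4 : (N : ℝ) ^ q / (q : ℝ) ^ q * Real.exp q = Real.exp (q * (1 + x - Real.log q)) := by
        have e1 : (N : ℝ) ^ q = Real.exp (q * x) := by
          rw [hx, mul_comm, ← Real.rpow_def_of_pos hN0, Real.rpow_natCast]
        have e2 : (q : ℝ) ^ q = Real.exp (q * Real.log q) := by
          rw [mul_comm, ← Real.rpow_def_of_pos hq0, Real.rpow_natCast]
        rw [e1, e2, ← Real.exp_sub, ← Real.exp_add]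
        congr 1; ring
      linarith
    have hνq : ν ^ (q.choose 2) = Real.exp (-(q * (q - 1) / a)) := by
      rw [hν, ← Real.exp_nat_mul, Nat.cast_choose_two]
      congr 1
      rw [ha]
      field_simp
    rw [hνq]
    have hb' : (1 + (b : ℝ)) = Real.exp L := by
      rw [hL, Real.exp_log (by linarith)]; ring
    calc (1 + (b : ℝ)) * (N.choose q * Real.exp (-(q * (q - 1) / a)))
        ≤ Real.exp L * (Real.exp (q * (1 + x - Real.log q)) * Real.exp (-(q * (q - 1) / a))) := by
          rw [hb']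
          apply mul_le_mul_of_nonneg_left _ (Real.exp_pos _).le
          exact mul_le_mul_of_nonneg_right hchoose (Real.exp_pos _).le
      _ = Real.exp (L + q * (1 + x - Real.log q) - q * (q - 1) / a) := by
          rw [← Real.exp_add, ← Real.exp_add]; congr 1; ring
      _ < 1 := Real.exp_lt_one_iff.2 (by linarith)
  have hlt := value_lt hnot
  have h1 : (value N m b : ℝ) < q := by exact_mod_cast hlt
  have h2 : a * (x - Real.log x) =
      2 * m * (Real.logb (b + 1) N - Real.logb (b + 1) (Real.log N)) := by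
    unfold Real.logb
    rw [← hL, ← hx, ha]
    field_simp
  rw [← h2]
  linarith

end Pool.Agent.Helper25.CliqueGame
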